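import Pool.Agent.Work.MP_1233f5_ag.Bd.B02
import Pool.Agent.Work.MP_1233f5_ag.Bdx.B03
import Pool.Agent.Work.MP_1233f5_ag.Bd.B03
import Pool.Agent.Work.MP_1233f5_ag.X.I_XBd
import Pool.Agent.Work.MP_1233f5_ag.Bdx.B05
import Pool.Agent.Work.MP_1233f5_ag.X.I_XRed

/-! MP_1233f5_ag: assembly of block X. -/

set_option autoImplicit false

namespace Pool.Agent.Work.MP_1233f5_ag.V

open Finset

theorem h_XC2a : S_XC2a := pr_XC2a pr_RSr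
theorem h_XC2b : S_XC2b := pr_XC2b pr_RSr
theorem h_XI2 : S_XI2 :=
  pr_XI2 h_XC2a h_XC2b pr_XPb h_PbSurj h_PbD h_PbCh pr_LiftT pr_TyW h_TransA
theorem h_XAnti3 : S_XAnti3 := pr_XAnti3 h_Main pr_A h_G pr_Tr
theorem h_XT3 : S_XT3 := pr_XT3 h_XI2 h_XAnti3 h_Rep
theorem h_XIII : S_XIII := pr_XIII h_XT3 h_XI2 pr_XA1
theorem h_XT2 : S_XT2 := pr_XT2 h_XIII h_XAnti3 pr_XA1 pr_RepDesc
theorem h_XA3 : S_XA3 := pr_XA3 h_XT3 pr_Down pr_XA1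
theorem h_XA2 : S_XA2 := pr_XA2 h_XT2 pr_Down pr_XA1
theorem h_XFin : S_XFin := pr_XFin pr_Ext pr_XBd pr_XRel pr_XSym pr_XA1 h_XA2 h_XA3
theorem h_XRed : S_XRed := pr_XRed pr_XSpan
theorem h_XMain : S_XMain :=
  pr_XMain h_Rep h_TransA h_LemD h_Main pr_Tr h_XFin h_XRed
theorem h_Main2 : S_Main2 := pr_Main2 h_Step h_XMain pr_Bnd2Val

end Pool.Agent.Work.MP_1233f5_ag.V

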